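import Mathlib

set_option autoImplicit false

namespace Pool.Agent.Results.MP_c4a975_al.Neg

variable {R : Type} [NonUnitalNonAssocRing R]

/-- The additive span of the products `a b`, `a ∈ A`, `b ∈ B`. -/
def pr (A B : AddSubgroup R) : AddSubgroup R :=
  AddSubgroup.closure {x | ∃ a ∈ A, ∃ b ∈ B, x = a * b}

/-- `J` is a two-sided ideal of the ring `I`. -/
def IdealOf (J I : AddSubgroup R) : Prop := J ≤ I ∧ ∀ a ∈ I, ∀ u ∈ J, a * u ∈ J ∧ u * a ∈ J

def MinimalIdeal (I : AddSubgroup R) : Prop :=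
  IdealOf I ⊤ ∧ I ≠ ⊥ ∧ ∀ J, IdealOf J ⊤ → J ≤ I → J = ⊥ ∨ J = I

def SimpleRing (I : AddSubgroup R) : Prop := pr I I ≠ ⊥ ∧ ∀ J, IdealOf J I → J = ⊥ ∨ J = I

def derived (I : AddSubgroup R) : ℕ → AddSubgroup R
  | 0 => I
  | k + 1 => pr (derived I k) (derived I k)

/-- `rpow I n` is the right power with exponent `n + 1`. -/
def rpow (I : AddSubgroup R) : ℕ → AddSubgroup R
  | 0 => I
  | k + 1 => pr (rpow I k) I

def E := ZMod 2 × ZMod 2 × ZMod 2

instance : Fintype E := inferInstanceAs (Fintype (ZMod 2 × ZMod 2 × ZMod 2))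
instance : DecidableEq E := inferInstanceAs (DecidableEq (ZMod 2 × ZMod 2 × ZMod 2))

instance ag : AddCommGroup E := inferInstanceAs (AddCommGroup (ZMod 2 × ZMod 2 × ZMod 2))

/-- Basis `ε, e, d`: `F₂[ε]/(ε²)` with unit `e`, and `d` acting on the right as `d/dε`. -/
instance ring : NonUnitalNonAssocRing E :=
  { ag with
    mul x y := (x.1 * y.2.1 + x.2.1 * y.1, x.1 * y.2.2 + x.2.1 * y.2.1, 0)
    left_distrib := by decide +kernel
    right_distrib := by decide +kernel
    zero_mul := by decide +kernel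
    mul_zero := by decide +kernel }

def I : AddSubgroup E where
  carrier := {x | x.2.2 = 0}
  add_mem' {a b} := by simp only [Set.mem_setOf_eq]; revert a b; decide +kernel
  zero_mem' := rfl
  neg_mem' {a} := by simp only [Set.mem_setOf_eq]; revert a; decide +kernel

def J : AddSubgroup E where
  carrier := {x | x.2 = 0}
  add_mem' {a b} := by simp only [Set.mem_setOf_eq]; revert a b; decide +kernel
  zero_mem' := rfl
  neg_mem' {a} := by simp only [Set.mem_setOf_eq]; revert a; decide +kernel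

def e : E := (0, 1, 0)
def ε : E := (1, 0, 0)

lemma ne {K : AddSubgroup E} (h : e ∈ K) : K ≠ ⊥ := fun h' => by
  rw [h', AddSubgroup.mem_bot] at h
  exact absurd h (by decide +kernel)

theorem result : ∃ (R : Type) (_ : NonUnitalNonAssocRing R),
    (∀ x y : R, (x * y) * y = x * (y * y)) ∧ ∃ I : AddSubgroup R, MinimalIdeal I ∧ ¬SimpleRing I ∧
      (∀ k, derived I k ≠ ⊥) ∧ ∀ k, rpow I k ≠ ⊥ := by
  refine ⟨E, ring, by decide +kernel, I, ⟨⟨le_top, fun a _ u _ => ⟨rfl, rfl⟩⟩, ne rfl,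
    fun K hK s => ?_⟩, fun h => ?_, fun k => ne ?_, fun k => ne ?_⟩
  · refine or_iff_not_imp_left.2 fun h => le_antisymm s fun x hx => ?_
    obtain ⟨⟨u, hu⟩, h0⟩ := (AddSubgroup.ne_bot_iff_exists_ne_zero).1 h
    obtain ⟨a, b, c, rfl⟩ := (by decide +kernel : ∀ u : E, u.2.2 = 0 → u ≠ 0 → ∀ x : E, x.2.2 = 0 →
      ∃ a b c, x = u * a + u * b * c) u (s hu) (fun h => h0 (Subtype.ext h)) x hx
    exact K.add_mem (hK.2 a trivial u hu).2 (hK.2 c trivial _ (hK.2 b trivial u hu).2).2
  · rcases h.2 J ⟨fun x hx => congrArg Prod.snd (show x.2 = 0 from hx), fun a ha u hu =>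
      (by decide +kernel : ∀ a u : E, a.2.2 = 0 → u.2 = 0 → (a * u).2 = 0 ∧ (u * a).2 = 0)
        a u ha hu⟩ with h | h
    · have : ε ∈ J := rfl
      rw [h, AddSubgroup.mem_bot] at this
      exact absurd this (by decide +kernel)
    · have : e ∈ J := h ▸ (rfl : e ∈ I)
      exact absurd (show e.2 = 0 from this) (by decide +kernel)
  · induction k with
    | zero => rfl
    | succ k ih => exact AddSubgroup.subset_closure ⟨e, ih, e, ih, by decide +kernel⟩
  · induction k with
    | zero => rfl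
    | succ k ih => exact AddSubgroup.subset_closure ⟨e, ih, e, rfl, by decide +kernel⟩

end Pool.Agent.Results.MP_c4a975_al.Neg
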